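import Pool.Agent.Helper99.MKV.GoalsC

/-!
# Packet MKV-DYY: the drift of the corrector of a scale
-/

set_option autoImplicit false

open Finset

namespace Pool.Agent.Helper4.MKV

open Pool.Agent.Helper99.MKV Pool.Agent.Helper99.ERW Pool.Agent.Helper99.EXC

lemma Bx_mono (b : ℕ) {k l : ℕ} (h : k ≤ l) : Bx b k ⊆ Bx b l := by
  intro x hx
  unfold Bx at hx ⊢
  rw [mem_box] at hx ⊢
  intro i
  refine (hx i).trans ?_
  have : b * 2 ^ k ≤ b * 2 ^ l := Nat.mul_le_mul_left b (Nat.pow_le_pow_right (by norm_num) h)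
  exact_mod_cast this

lemma cv_abs_le {E ι : Type} [Fintype ι] {U : Sys E ι} (hU : U.Ok) {B : ℝ}
    {S T : Site 2 → E → ℝ} (hS : ∀ z e, |S z e| ≤ B) (hT : ∀ z e, |T z e| ≤ B) (z : Site 2)
    (e : E) : |cv U S T z e| ≤ 4 * B ^ 2 := by
  unfold cv av
  refine (Finset.abs_sum_le_sum_abs _ _).trans ?_
  have hB : 0 ≤ B := (abs_nonneg _).trans (hS z e)
  have h1 : ∀ i, |U.wt z e i * ((S z (U.nx z e i) - S z e) * (T z (U.nx z e i) - T z e))| ≤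
      U.wt z e i * (4 * B ^ 2) := by
    intro i
    rw [abs_mul, abs_of_nonneg (hU.wt0 z e i)]
    refine mul_le_mul_of_nonneg_left ?_ (hU.wt0 z e i)
    rw [abs_mul]
    have h2 : |S z (U.nx z e i) - S z e| ≤ 2 * B := by
      refine (abs_sub _ _).trans ?_
      linarith [hS z (U.nx z e i), hS z e]
    have h3 : |T z (U.nx z e i) - T z e| ≤ 2 * B := by
      refine (abs_sub _ _).trans ?_
      linarith [hT z (U.nx z e i), hT z e]
    calc |S z (U.nx z e i) - S z e| * |T z (U.nx z e i) - T z e| ≤ (2 * B) * (2 * B) :=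
          mul_le_mul h2 h3 (abs_nonneg _) (by linarith)
      _ = 4 * B ^ 2 := by ring
  refine (Finset.sum_le_sum fun i _ => h1 i).trans ?_
  rw [← Finset.sum_mul, hU.wt1, one_mul]

/-- the exact formula for the drift -/
lemma drift_formula (hDRG : DRG_stmt) {E ι : Type} [Fintype ι] {U : Sys E ι} {a B BR κ C : ℝ}
    {S R T : Site 2 → E → ℝ} {ep : Site 2 → ℝ} {φ : Site 2 → ℝ} {Φ : ℕ → Site 2 → ℝ}
    {b k1 : ℕ} (hD : Dat U a B S) (hs : Scx a φ Φ κ C b k1)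
    (hP : Poi U a (Df φ 0) B BR S R T ep) {m k s : ℕ} (hkk : k1 ≤ k) (hks : k ≤ s) (t : MSt E)
    (ht : t.1 ∈ Bx b (s + 1)) :
    Dr U (YY κ φ Φ S R T b m k s) t - (-(La a (Φ k) t.1 *
        (ck Φ S b k t - VV T (Bx b k) (hk Φ k) t)) + dd U a t * fv Φ S b (k - m) k (hk Φ k) t) =
      (Dr U (Yv κ φ Φ S b (k - m) k (hk Φ k)) t - Dv U a φ Φ S b (k - m) k (hk Φ k) t) +
      hk Φ k t.1 * (Th U a (Df φ 0) S t.1 (t.2 t.1) - T t.1 (t.2 t.1) +
        Df φ 0 * cv U S T t.1 (t.2 t.1) -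
        (av U t.1 (R t.1) (t.2 t.1) - R t.1 (t.2 t.1))) -
      hk Φ k t.1 * Df (Φ k) t.1 * cv U S T t.1 (t.2 t.1) := by
  obtain ⟨d1, d2, d3⟩ := hDRG E ι U hD.ok t
  have e1 : Dr U (YY κ φ Φ S R T b m k s) t =
      Dr U (Yv κ φ Φ S b (k - m) k (hk Φ k)) t - Dr U (VV R (Bx b k) (hk Φ k)) t -
        Dr U (ZZ φ (Φ k) T (Bx b k) (hk Φ k)) t +
        Dr U (BL S T (Bx b (s + 1)) (Bx b k) (fun y z => hk Φ k z * Ek φ Φ k y z)) t := by
    have : YY κ φ Φ S R T b m k s = fun t => ((Yv κ φ Φ S b (k - m) k (hk Φ k) t -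
      VV R (Bx b k) (hk Φ k) t) - ZZ φ (Φ k) T (Bx b k) (hk Φ k) t) +
      BL S T (Bx b (s + 1)) (Bx b k) (fun y z => hk Φ k z * Ek φ Φ k y z) t := by
      funext t; rfl
    rw [this, Dr_add (fun t => (Yv κ φ Φ S b (k - m) k (hk Φ k) t -
      VV R (Bx b k) (hk Φ k) t) - ZZ φ (Φ k) T (Bx b k) (hk Φ k) t),
      Dr_sub (fun t => Yv κ φ Φ S b (k - m) k (hk Φ k) t - VV R (Bx b k) (hk Φ k) t),
      Dr_sub]
  have e2 := d1 R (Bx b k) (hk Φ k)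
  have e3 := d2 a φ (Φ k) hs.lap T (Bx b k) (hk Φ k)
  have e4 := d3 S T (Bx b (s + 1)) (Bx b k) (fun y z => hk Φ k z * Ek φ Φ k y z)
  rw [hP.hT, sub_self] at e3 e4
  rw [hD.ps, if_pos ht] at e4
  have hsub : ∑ z ∈ Bx b k, (hk Φ k z * Ek φ Φ k t.1 z) * T z (t.2 z) =
      ∑ z ∈ Bx b k, hk Φ k z * T z (t.2 z) * (Df φ (t.1 - z) - Df (Φ k) t.1) := by
    refine Finset.sum_congr rfl fun z _ => ?_
    unfold Ek
    ring
  have hdd : U.f t.1 (t.2 t.1) - a = dd U a t := rfl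
  simp only [hsub, hdd] at e4
  have hE : Ek φ Φ k t.1 t.1 = Df φ 0 - Df (Φ k) t.1 := by
    unfold Ek; rw [sub_self]
  by_cases hx : t.1 ∈ Bx b k
  · rw [if_pos hx] at e2
    rw [if_pos hx, if_pos hx] at e3
    rw [if_pos hx, if_pos ⟨ht, hx⟩] at e4
    rw [e1, e2, e3, e4]
    simp only [hE]
    unfold Dv ck
    ring
  · have h0 : hk Φ k t.1 = 0 := hs.hS k hkk t.1 hx
    rw [if_neg hx] at e2
    rw [if_neg hx, if_neg hx] at e3
    rw [if_neg hx, if_neg (fun h => hx h.2)] at e4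
    rw [e1, e2, e3, e4]
    unfold Dv ck
    rw [h0]
    ring

theorem DYY (hDRG : DRG_stmt) (hDRF : DRF_stmt) : DYY_stmt := by
  intro κ C b B hκ hC hb hB
  obtain ⟨C1, hC1, hF⟩ := hDRF κ C b B hκ hC hb hB
  refine ⟨C1 * C + 4 * B ^ 2 * C ^ 2, by positivity, ?_⟩
  intro E ι _ U a BR S R T ep φ Φ k1 hD hs hP m k s hkm hks t ht
  have hkk : k1 ≤ k := by omega
  have hj : k1 ≤ k - m := by omega
  rw [drift_formula hDRG hD hs hP hkk hks t ht]
  have hW : Wt b k C (hk Φ k) :=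
    ⟨by linarith, hs.hS k hkk, hs.h1 k hkk, hs.hL k hkk⟩
  obtain ⟨f1, f2⟩ := hF E ι U a S φ Φ k1 hD hs (k - m) k hj (Nat.sub_le k m) C
    (hk Φ k) hW t
  have hmain : |hk Φ k t.1 * (Th U a (Df φ 0) S t.1 (t.2 t.1) -
      T t.1 (t.2 t.1) + Df φ 0 * cv U S T t.1 (t.2 t.1) -
        (av U t.1 (R t.1) (t.2 t.1) - R t.1 (t.2 t.1)))| ≤
      |hk Φ k t.1| * ep t.1 := by
    rw [abs_mul]
    exact mul_le_mul_of_nonneg_left (hP.eq t.1 (t.2 t.1)) (abs_nonneg _)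
  by_cases hx : t.1 ∈ Bx b (k + 1)
  · rw [if_pos hx]
    have g1 := f1 hx
    have hpow : (2 : ℝ) ^ (k - m) / 2 ^ k = 1 / 2 ^ m := by
      have h2 : (2 : ℝ) ^ k = 2 ^ (k - m) * 2 ^ m := by
        rw [← pow_add]; congr 1; omega
      rw [h2]
      field_simp
    rw [hpow] at g1
    have hthird : |hk Φ k t.1 * Df (Φ k) t.1 *
        cv U S T t.1 (t.2 t.1)| ≤ 4 * B ^ 2 * C ^ 2 * (1 / 2 ^ m + 1 / 4 ^ (k - m)) / 4 ^ k := by
      rw [abs_mul, abs_mul]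
      have a1 := hs.h1 k hkk t.1
      have a2 := hs.dphi1 k hkk t.1
      have a3 := cv_abs_le hD.ok hD.bd hP.bT t.1 (t.2 t.1)
      have a4 : (1 : ℝ) / 4 ^ k ≤ 1 / 2 ^ m + 1 / 4 ^ (k - m) := by
        have : (1 : ℝ) / 4 ^ k ≤ 1 / 4 ^ (k - m) :=
          one_div_le_one_div_of_le (by positivity)
            (pow_le_pow_right₀ (by norm_num) (Nat.sub_le k m))
        have h' : (0 : ℝ) ≤ 1 / 2 ^ m := by positivity
        linarith
      calc |hk Φ k t.1| * |Df (Φ k) t.1| * |cv U S T t.1 (t.2 t.1)|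
          ≤ (C / 4 ^ k) * (C / 4 ^ k) * (4 * B ^ 2) := by
            refine mul_le_mul (mul_le_mul a1 a2 (abs_nonneg _) (by positivity)) a3
              (abs_nonneg _) (by positivity)
        _ = 4 * B ^ 2 * C ^ 2 * (1 / 4 ^ k) / 4 ^ k := by ring
        _ ≤ 4 * B ^ 2 * C ^ 2 * (1 / 2 ^ m + 1 / 4 ^ (k - m)) / 4 ^ k := by
            refine div_le_div_of_nonneg_right ?_ (by positivity)
            exact mul_le_mul_of_nonneg_left a4 (by positivity)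
    refine (abs_sub _ _).trans ?_
    refine (add_le_add (abs_add_le _ _) hthird).trans ?_
    have e : (C1 * C + 4 * B ^ 2 * C ^ 2) * (1 / 2 ^ m + 1 / 4 ^ (k - m)) / 4 ^ k =
        C1 * C * (1 / 2 ^ m + 1 / 4 ^ (k - m)) / 4 ^ k +
          4 * B ^ 2 * C ^ 2 * (1 / 2 ^ m + 1 / 4 ^ (k - m)) / 4 ^ k := by ring
    rw [e]
    linarith
  · rw [if_neg hx, f2 hx]
    have h0 : hk Φ k t.1 = 0 :=
      hs.hS k hkk t.1 fun h => hx (Bx_mono b (Nat.le_succ k) h)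
    rw [h0]
    simp

end Pool.Agent.Helper4.MKV
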